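import Mathlib

/-!
One coordinate of the theorem of Erdos on complete multipartite subhypergraphs.
-/

namespace Pool.Agent.Lib.MP_455133_co.BO

open Finset

/-- the double count: `∑_b #{x | ∀ i, (x, b i) ∈ D} = ∑_x d(x) ^ t` -/
private theorem step_count (t N : ℕ) (X : Type) [Fintype X] [DecidableEq X]
    (D : Finset (X × Fin N)) :
    ∑ b : Fin t → Fin N, (univ.filter fun x : X => ∀ i, (x, b i) ∈ D).card =
      ∑ x : X, (univ.filter fun j : Fin N => (x, j) ∈ D).card ^ t := by
  have h1 : ∀ b : Fin t → Fin N, (univ.filter fun x : X => ∀ i, (x, b i) ∈ D).card =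
      ∑ x : X, if ∀ i, (x, b i) ∈ D then 1 else 0 := by
    intro b
    rw [Finset.card_filter]
  simp_rw [h1]
  rw [Finset.sum_comm]
  apply Finset.sum_congr rfl
  intro x _
  rw [← Finset.card_filter]
  have h2 : (univ.filter fun b : Fin t → Fin N => ∀ i, (x, b i) ∈ D) =
      Fintype.piFinset fun _ : Fin t => univ.filter fun j : Fin N => (x, j) ∈ D := by
    ext b
    simp [Fintype.mem_piFinset]
  rw [h2, Fintype.card_piFinset, Finset.prod_const, Finset.card_univ, Fintype.card_fin]

private theorem step_deg (N : ℕ) (X : Type) [Fintype X] [DecidableEq X]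
    (D : Finset (X × Fin N)) :
    ∑ x : X, (univ.filter fun j : Fin N => (x, j) ∈ D).card = D.card := by
  have h1 : ∀ x : X, (univ.filter fun j : Fin N => (x, j) ∈ D).card =
      ∑ j : Fin N, if (x, j) ∈ D then 1 else 0 := by
    intro x
    rw [Finset.card_filter]
  simp_rw [h1]
  rw [← Fintype.sum_prod_type']
  rw [← Finset.card_filter]
  congr 1
  ext p
  simp

/-- number of tuples that are not injective -/
private theorem step_inj (t N : ℕ) (hN : t ≤ N) (hN0 : 0 < N) :
    (N : ℝ) ^ t * (1 - t ^ 2 / N) ≤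
      (univ.filter fun b : Fin t → Fin N => Function.Injective b).card := by
  have h1 : (univ.filter fun b : Fin t → Fin N => Function.Injective b).card =
      N.descFactorial t := by
    have h2 : Fintype.card {b : Fin t → Fin N // Function.Injective b} =
        Fintype.card (Fin t ↪ Fin N) :=
      Fintype.card_congr (Equiv.subtypeInjectiveEquivEmbedding _ _)
    rw [Fintype.card_embedding_eq, Fintype.card_fin, Fintype.card_fin,
      Fintype.card_subtype] at h2
    exact h2
  rw [h1]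
  have h3 : ((N + 1 - t : ℕ) : ℝ) ^ t ≤ (N.descFactorial t : ℝ) := by
    exact_mod_cast Nat.pow_sub_le_descFactorial N t
  refine le_trans ?_ h3
  have hNR : (0 : ℝ) < N := by exact_mod_cast hN0
  rcases Nat.eq_zero_or_pos t with rfl | ht
  · simp
  have h4 : ((N + 1 - t : ℕ) : ℝ) = N * (1 + (-((t : ℝ) - 1) / N)) := by
    rw [Nat.cast_sub (by omega)]
    field_simp
    push_cast
    ring
  rw [h4, mul_pow]
  apply mul_le_mul_of_nonneg_left _ (by positivity)
  have htR : (1 : ℝ) ≤ t := by exact_mod_cast ht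
  have htN : (t : ℝ) ≤ N := by exact_mod_cast hN
  have h5 : -2 ≤ -((t : ℝ) - 1) / N := by
    rw [le_div_iff₀ hNR]
    linarith
  have h6 := one_add_mul_le_pow h5 t
  refine le_trans ?_ h6
  have h7 : (t : ℝ) * (-((t : ℝ) - 1) / N) = -((t : ℝ) * (t - 1) / N) := by ring
  rw [h7]
  have h8 : (t : ℝ) * (t - 1) / N ≤ (t : ℝ) ^ 2 / N := by
    apply div_le_div_of_nonneg_right _ hNR.le
    nlinarith
  linarith

/-- Power mean over injective `t`-tuples: if `D ⊆ X × Fin N` has at least `ε |X| N` elements,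
then some injective `b : Fin t → Fin N` has at least `(ε ^ t / 2) |X|` points `x` with
`(x, b i) ∈ D` for all `i`, once `N ≥ N₀(t, ε)`.
Proof: `∑_{b : Fin t → Fin N} #{x | ∀ i, (x, b i) ∈ D} = ∑_x d(x) ^ t ≥ |X| (ε N) ^ t`
(`inner_le_nnorm_mul_nnorm`/`Finset.inner...` power mean, e.g. `inner_pow_le` or
`Real.pow_arith_mean_le_arith_mean_pow`), and at most `t ^ 2 N ^ (t - 1)` tuples `b` are not
injective, each contributing at most `|X|`. -/
theorem step (t : ℕ) {ε : ℝ} (hε : 0 < ε) : ∃ N₀ : ℕ, ∀ N : ℕ, N₀ ≤ N →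
    ∀ (X : Type) [Fintype X] [DecidableEq X] (D : Finset (X × Fin N)),
    ε * (Fintype.card X * N) ≤ D.card →
    ∃ b : Fin t → Fin N, Function.Injective b ∧
      ε ^ t / 2 * Fintype.card X ≤ (univ.filter fun x : X => ∀ i, (x, b i) ∈ D).card := by
  refine ⟨max (t + 1) (⌈2 * (t : ℝ) ^ 2 / ε ^ t⌉₊ + 1), fun N hN X _ _ D hD => ?_⟩
  have hN1 : t ≤ N := by
    have := le_trans (le_max_left _ _) hN
    omega
  have hN0 : 0 < N := by
    have := le_trans (le_max_left _ _) hN
    omega
  have hNR : (0 : ℝ) < N := by exact_mod_cast hN0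
  have hN2 : 2 * (t : ℝ) ^ 2 / ε ^ t < N := by
    have h1 := le_trans (le_max_right _ _) hN
    have h2 : 2 * (t : ℝ) ^ 2 / ε ^ t ≤ (⌈2 * (t : ℝ) ^ 2 / ε ^ t⌉₊ : ℝ) := Nat.le_ceil _
    have h3 : ((⌈2 * (t : ℝ) ^ 2 / ε ^ t⌉₊ + 1 : ℕ) : ℝ) ≤ N := by exact_mod_cast h1
    push_cast at h3
    linarith
  have hεt : 0 < ε ^ t := pow_pos hε t
  by_contra hcon
  push Not at hcon
  -- an injective tuple
  let b₀ : Fin t → Fin N := fun i => ⟨i.1, lt_of_lt_of_le i.2 hN1⟩
  have hb₀ : Function.Injective b₀ := by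
    intro i j hij
    have h : (b₀ i).1 = (b₀ j).1 := congrArg Fin.val hij
    exact Fin.ext h
  have hX : 0 < Fintype.card X := by
    by_contra h0
    have h1 : Fintype.card X = 0 := by omega
    have h2 := hcon b₀ hb₀
    rw [h1] at h2
    simp only [Nat.cast_zero, mul_zero] at h2
    exact absurd h2 (not_lt.2 (Nat.cast_nonneg _))
  have hXR : (0 : ℝ) < Fintype.card X := by exact_mod_cast hX
  set M : ℝ := ((Fintype.card X : ℕ) : ℝ) with hM
  -- lower bound
  have hlow : M * (ε * N) ^ t ≤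
      ∑ b : Fin t → Fin N, ((univ.filter fun x : X => ∀ i, (x, b i) ∈ D).card : ℝ) := by
    have h1 : (∑ b : Fin t → Fin N, ((univ.filter fun x : X => ∀ i, (x, b i) ∈ D).card : ℝ)) =
        ∑ x : X, ((univ.filter fun j : Fin N => (x, j) ∈ D).card : ℝ) ^ t := by
      have := step_count t N X D
      exact_mod_cast this
    have h2 : (∑ x : X, ((univ.filter fun j : Fin N => (x, j) ∈ D).card : ℝ)) = D.card := by
      have := step_deg N X D
      exact_mod_cast this
    rw [h1]
    have h3 := Real.pow_arith_mean_le_arith_mean_pow univ (fun _ : X => M⁻¹)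
      (fun x : X => ((univ.filter fun j : Fin N => (x, j) ∈ D).card : ℝ))
      (fun _ _ => by positivity) (by
        rw [Finset.sum_const, Finset.card_univ, nsmul_eq_mul, ← hM]
        exact mul_inv_cancel₀ hXR.ne') (fun _ _ => Nat.cast_nonneg _) t
    rw [← Finset.mul_sum, ← Finset.mul_sum, h2] at h3
    have h4 : (ε * N) ^ t ≤ (M⁻¹ * D.card) ^ t := by
      apply pow_le_pow_left₀ (by positivity)
      rw [inv_mul_eq_div, le_div_iff₀ hXR]
      calc ε * N * M = ε * (M * N) := by ring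
        _ ≤ D.card := hD
    calc M * (ε * N) ^ t ≤ M * (M⁻¹ * ∑ x : X,
          ((univ.filter fun j : Fin N => (x, j) ∈ D).card : ℝ) ^ t) :=
          mul_le_mul_of_nonneg_left (h4.trans h3) hXR.le
      _ = _ := by rw [← mul_assoc, mul_inv_cancel₀ hXR.ne', one_mul]
  -- upper bound
  have hcard : ∀ b : Fin t → Fin N,
      ((univ.filter fun x : X => ∀ i, (x, b i) ∈ D).card : ℝ) ≤ M := by
    intro b
    rw [hM]
    exact_mod_cast Finset.card_filter_le _ _
  have hinj := step_inj t N hN1 hN0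
  set I := univ.filter fun b : Fin t → Fin N => Function.Injective b with hI
  have htot : ((univ.filter fun b : Fin t → Fin N => ¬ Function.Injective b).card : ℝ) =
      (N : ℝ) ^ t - I.card := by
    have h1 := Finset.card_filter_add_card_filter_not (s := (univ : Finset (Fin t → Fin N)))
      (fun b => Function.Injective b)
    rw [Finset.card_univ, Fintype.card_fun, Fintype.card_fin, Fintype.card_fin] at h1
    have h2 : (I.card : ℝ) + ((univ.filter fun b : Fin t → Fin N =>
        ¬ Function.Injective b).card : ℝ) = (N : ℝ) ^ t := by exact_mod_cast h1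
    linarith
  have hup : ∑ b : Fin t → Fin N, ((univ.filter fun x : X => ∀ i, (x, b i) ∈ D).card : ℝ) <
      I.card * (ε ^ t / 2 * M) + ((N : ℝ) ^ t - I.card) * M := by
    rw [← Finset.sum_filter_add_sum_filter_not univ (fun b : Fin t → Fin N =>
      Function.Injective b), ← htot]
    apply add_lt_add_of_lt_of_le
    · have h1 : ∑ b ∈ I, ((univ.filter fun x : X => ∀ i, (x, b i) ∈ D).card : ℝ) <
          ∑ b ∈ I, (ε ^ t / 2 * M) := by
        apply Finset.sum_lt_sum_of_nonempty ⟨b₀, Finset.mem_filter.2 ⟨Finset.mem_univ _, hb₀⟩⟩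
        intro b hb
        exact hcon b (Finset.mem_filter.1 hb).2
      rwa [Finset.sum_const, nsmul_eq_mul] at h1
    · have h1 : ∑ b ∈ univ.filter (fun b : Fin t → Fin N => ¬ Function.Injective b),
          ((univ.filter fun x : X => ∀ i, (x, b i) ∈ D).card : ℝ) ≤
          ∑ b ∈ univ.filter (fun b : Fin t → Fin N => ¬ Function.Injective b), M :=
        Finset.sum_le_sum fun b _ => hcard b
      rwa [Finset.sum_const, nsmul_eq_mul] at h1
  have hIN : (I.card : ℝ) ≤ (N : ℝ) ^ t := by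
    have : (0 : ℝ) ≤ ((univ.filter fun b : Fin t → Fin N => ¬ Function.Injective b).card : ℝ) :=
      Nat.cast_nonneg _
    linarith
  have h1 : (N : ℝ) ^ t * (t ^ 2 / N) ≤ (N : ℝ) ^ t * (ε ^ t / 2) := by
    apply mul_le_mul_of_nonneg_left _ (by positivity)
    rw [div_lt_iff₀ hεt] at hN2
    rw [div_le_iff₀ hNR]
    linarith
  have h2 : M * (ε * N) ^ t < I.card * (ε ^ t / 2 * M) + ((N : ℝ) ^ t - I.card) * M :=
    hlow.trans_lt hup
  have h3 : (I.card : ℝ) * (ε ^ t / 2 * M) ≤ (N : ℝ) ^ t * (ε ^ t / 2 * M) :=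
    mul_le_mul_of_nonneg_right hIN (by positivity)
  have h4 : ((N : ℝ) ^ t - I.card) * M ≤ ((N : ℝ) ^ t * (ε ^ t / 2)) * M := by
    apply mul_le_mul_of_nonneg_right _ hXR.le
    have : (N : ℝ) ^ t * (1 - t ^ 2 / N) = (N : ℝ) ^ t - (N : ℝ) ^ t * (t ^ 2 / N) := by ring
    rw [this] at hinj
    linarith
  have h5 : M * (ε * N) ^ t = (N : ℝ) ^ t * (ε ^ t / 2 * M) + ((N : ℝ) ^ t * (ε ^ t / 2)) * M := by
    rw [mul_pow]; ring
  linarith

end Pool.Agent.Lib.MP_455133_co.BO
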