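import Mathlib
import Pool.Agent.Lib.MP_455133_co.BO.Step

/-!
The theorem of Erdos on complete multipartite subhypergraphs, for sets of tuples.
-/

namespace Pool.Agent.Lib.MP_455133_co.BO

open Finset

/-- The set of pairs (tail, head) of the members of `T`. -/
private def Erdos_D {m N : ℕ} (T : Finset (Fin (m + 1) → Fin N)) :
    Finset ((Fin m → Fin N) × Fin N) :=
  univ.filter fun p => (Fin.cons p.2 p.1 : Fin (m + 1) → Fin N) ∈ T

private theorem Erdos_card {m N : ℕ} (T : Finset (Fin (m + 1) → Fin N)) :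
    (Erdos_D T).card = T.card := by
  refine Finset.card_nbij' (fun p => (Fin.cons p.2 p.1 : Fin (m + 1) → Fin N))
    (fun x => (Fin.tail x, x 0)) ?_ ?_ ?_ ?_
  · intro p hp
    exact (Finset.mem_filter.1 hp).2
  · intro x hx
    refine Finset.mem_filter.2 ⟨Finset.mem_univ _, ?_⟩
    show (Fin.cons (x 0) (Fin.tail x) : Fin (m + 1) → Fin N) ∈ T
    rw [Fin.cons_self_tail]
    exact hx
  · intro p _
    show (Fin.tail (Fin.cons p.2 p.1 : Fin (m + 1) → Fin N),
      (Fin.cons p.2 p.1 : Fin (m + 1) → Fin N) 0) = p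
    rw [Fin.tail_cons, Fin.cons_zero]
  · intro x _
    show (Fin.cons (x 0) (Fin.tail x) : Fin (m + 1) → Fin N) = x
    exact Fin.cons_self_tail x

/-- Induction on `m` with `step` (`Fin.snoc`/`Fin.consEquiv` to split off one coordinate). -/
theorem erdos_box (m t : ℕ) {ε : ℝ} (hε : 0 < ε) : ∃ N₀ : ℕ, ∀ N : ℕ, N₀ ≤ N →
    ∀ T : Finset (Fin m → Fin N), ε * (N : ℝ) ^ m ≤ T.card →
    ∃ B : Fin m → Finset (Fin N), (∀ i, (B i).card = t) ∧
      ∀ x : Fin m → Fin N, (∀ i, x i ∈ B i) → x ∈ T := by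
  induction m generalizing ε with
  | zero =>
    refine ⟨0, ?_⟩
    intro N _ T hT
    rw [pow_zero, mul_one] at hT
    have h1 : 0 < (T.card : ℝ) := hε.trans_le hT
    have h2 : 0 < T.card := by exact_mod_cast h1
    obtain ⟨y, hy⟩ := Finset.card_pos.1 h2
    refine ⟨fun i => i.elim0, fun i => i.elim0, ?_⟩
    intro x _
    have e : x = y := Subsingleton.elim _ _
    rw [e]
    exact hy
  | succ m ih =>
    have hε' : 0 < ε ^ t / 2 := by positivity
    obtain ⟨N1, hN1⟩ := step t hε
    obtain ⟨N2, hN2⟩ := ih hε'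
    refine ⟨max N1 N2, ?_⟩
    intro N hN T hT
    have hcardX : Fintype.card (Fin m → Fin N) = N ^ m := by simp
    obtain ⟨b, hb, hS⟩ := hN1 N (le_trans (le_max_left _ _) hN) (Fin m → Fin N) (Erdos_D T) (by
      rw [Erdos_card, hcardX]
      push_cast
      rw [← pow_succ]
      exact hT)
    rw [hcardX] at hS
    push_cast at hS
    obtain ⟨B, hB1, hB2⟩ := hN2 N (le_trans (le_max_right _ _) hN)
      (univ.filter fun x : Fin m → Fin N => ∀ i, (x, b i) ∈ Erdos_D T) hS
    refine ⟨Fin.cons (univ.image b) B, ?_, ?_⟩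
    · intro i
      refine Fin.cases ?_ ?_ i
      · rw [Fin.cons_zero, Finset.card_image_of_injective _ hb, Finset.card_univ, Fintype.card_fin]
      · intro j
        rw [Fin.cons_succ]
        exact hB1 j
    · intro x hx
      have h0 := hx 0
      rw [Fin.cons_zero] at h0
      obtain ⟨j, _, hj⟩ := Finset.mem_image.1 h0
      have h1 : Fin.tail x ∈ univ.filter fun x : Fin m → Fin N => ∀ i, (x, b i) ∈ Erdos_D T := by
        apply hB2
        intro i
        have h2 := hx i.succ
        rw [Fin.cons_succ] at h2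
        exact h2
      have h3 := (Finset.mem_filter.1 h1).2 j
      have h4 := (Finset.mem_filter.1 h3).2
      have h5 : (Fin.cons (b j) (Fin.tail x) : Fin (m + 1) → Fin N) ∈ T := h4
      rw [hj, Fin.cons_self_tail] at h5
      exact h5

end Pool.Agent.Lib.MP_455133_co.BO
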