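import Mathlib
import Pool.Agent.Lib.MP_455133_co.BO.Cfg

/-!
The Lagrangian of a family of `(n+1)`-sets.
-/

namespace Pool.Agent.Lib.MP_455133_co.BO

open Finset

variable {V : Type} [Fintype V] [DecidableEq V]

/-- The density form: the sum of `∏ x (w i)` over the `(n+1)`-tuples `w` whose set of entries is a
member of `H`. -/
noncomputable def dens (H : Finset (Finset V)) (n : ℕ) (x : V → ℝ) : ℝ :=
  ∑ w ∈ univ.filter (fun w : Fin (n + 1) → V => univ.image w ∈ H), ∏ i, x (w i)

/-- The link form at `v`: the sum over the `n`-tuples `w` for which `v` and `w` form a member. -/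
noncomputable def ldens (H : Finset (Finset V)) (n : ℕ) (v : V) (x : V → ℝ) : ℝ :=
  ∑ w ∈ univ.filter (fun w : Fin n → V => insert v (univ.image w) ∈ H), ∏ i, x (w i)

theorem dens_nonneg (H : Finset (Finset V)) (n : ℕ) {x : V → ℝ} (hx : ∀ v, 0 ≤ x v) :
    0 ≤ dens H n x := by
  unfold dens
  exact Finset.sum_nonneg fun w _ => Finset.prod_nonneg fun i _ => hx _

private theorem Lagr_image_insertNth (n : ℕ) (j : Fin (n + 1)) (v : V) (w : Fin n → V) :
    univ.image (j.insertNth v w : Fin (n + 1) → V) = insert v (univ.image w) := by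
  ext a
  simp only [mem_image, mem_univ, true_and, mem_insert]
  constructor
  · rintro ⟨i, rfl⟩
    rcases Fin.eq_self_or_eq_succAbove j i with rfl | ⟨i', rfl⟩
    · left
      rw [Fin.insertNth_apply_same]
    · right
      exact ⟨i', by rw [Fin.insertNth_apply_succAbove]⟩
  · rintro (rfl | ⟨i, rfl⟩)
    · exact ⟨j, by rw [Fin.insertNth_apply_same]⟩
    · exact ⟨j.succAbove i, by rw [Fin.insertNth_apply_succAbove]⟩

/-- Splitting off the `j`-th entry. -/
private theorem Lagr_split (n : ℕ) (j : Fin (n + 1)) (f : (Fin (n + 1) → V) → ℝ) :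
    ∑ w, f w = ∑ u, ∑ w : Fin n → V, f (j.insertNth u w) := by
  rw [← Fintype.sum_prod_type']
  exact (Fintype.sum_equiv (Fin.insertNthEquiv (fun _ => V) j) _ _ (fun _ => rfl)).symm

/-- Split off the first entry (`Fin.consEquiv` / `Fin.cons`). -/
theorem dens_eq (H : Finset (Finset V)) (n : ℕ) (x : V → ℝ) :
    dens H n x = ∑ v, x v * ldens H n v x := by
  unfold dens ldens
  rw [Finset.sum_filter, Lagr_split n 0]
  apply Finset.sum_congr rfl
  intro v _
  rw [Finset.sum_filter, Finset.mul_sum]
  apply Finset.sum_congr rfl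
  intro w _
  rw [Lagr_image_insertNth]
  split_ifs with h
  · refine (Fin.prod_univ_succAbove _ 0).trans ?_
    simp only [Fin.insertNth_apply_same, Fin.insertNth_apply_succAbove]
  · rw [mul_zero]

/-- The form is homogeneous. -/
theorem ldens_smul (H : Finset (Finset V)) (n : ℕ) (v : V) (x : V → ℝ) (L : ℝ) :
    ldens H n v (fun u => L * x u) = L ^ n * ldens H n v x := by
  unfold ldens
  rw [Finset.mul_sum]
  apply Finset.sum_congr rfl
  intro w _
  rw [Finset.prod_mul_distrib, Finset.prod_const, Finset.card_univ, Fintype.card_fin]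

/-- All tuples: the two sums add up to `(∑ x) ^ n`. -/
theorem ldens_add (H : Finset (Finset V)) (n : ℕ) (v : V) (x : V → ℝ) :
    ldens H n v x + ∑ w ∈ lnk H n v, ∏ i, x (w i) = (∑ u, x u) ^ n := by
  unfold ldens lnk
  rw [Finset.sum_filter_add_sum_filter_not, Fintype.sum_pow]

/-- For `a, b ≥ 0`: `∏ (a i + b i) ≥ ∏ a i + ∑ j, b j * ∏_{i ≠ j} a i`. -/
theorem prod_add_ge {m : ℕ} (a b : Fin m → ℝ) (ha : ∀ i, 0 ≤ a i) (hb : ∀ i, 0 ≤ b i) :
    ∏ i, a i + ∑ j, b j * ∏ i ∈ univ.erase j, a i ≤ ∏ i, (a i + b i) := by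
  have key : ∀ s : Finset (Fin m), ∏ i ∈ s, a i + ∑ j ∈ s, b j * ∏ i ∈ s.erase j, a i ≤
      ∏ i ∈ s, (a i + b i) := by
    intro s
    induction s using Finset.induction_on with
    | empty => simp
    | insert i s hi ih =>
      rw [Finset.prod_insert hi, Finset.prod_insert hi, Finset.sum_insert hi,
        Finset.erase_insert hi]
      have h1 : ∑ j ∈ s, b j * ∏ l ∈ (insert i s).erase j, a l =
          a i * ∑ j ∈ s, b j * ∏ l ∈ s.erase j, a l := by
        rw [Finset.mul_sum]
        apply Finset.sum_congr rfl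
        intro j hj
        have hij : i ≠ j := fun h => hi (h ▸ hj)
        rw [Finset.erase_insert_of_ne hij, Finset.prod_insert (fun h => hi (Finset.mem_of_mem_erase h))]
        ring
      rw [h1]
      have h2 : 0 ≤ ∑ j ∈ s, b j * ∏ l ∈ s.erase j, a l :=
        Finset.sum_nonneg fun j _ => mul_nonneg (hb j) (Finset.prod_nonneg fun l _ => ha l)
      have h3 := mul_le_mul_of_nonneg_left ih (add_nonneg (ha i) (hb i))
      have h4 := mul_nonneg (hb i) h2
      nlinarith
  exact key univ

/-- With `a i = (1 - τ) x (w i)`, `b i = τ [w i = v]` in `prod_add_ge`, summed over the tuples `w`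
of `dens`: `dens ((1 - τ) x + τ δ_v) ≥ (1 - τ)^(n+1) dens x + (n+1) τ (1 - τ)^n ldens v x`
(for each coordinate `j` the tuples with `w j = v` correspond to the `n`-tuples of `ldens`). -/
theorem dens_move (H : Finset (Finset V)) (n : ℕ) {x : V → ℝ} (hx : ∀ v, 0 ≤ x v) (v : V)
    {τ : ℝ} (h0 : 0 ≤ τ) (h1 : τ ≤ 1) :
    (1 - τ) ^ (n + 1) * dens H n x + (n + 1) * (τ * ((1 - τ) ^ n * ldens H n v x)) ≤
      dens H n (fun u => (1 - τ) * x u + τ * (if u = v then 1 else 0)) := by
  have hsplit : ∀ j : Fin (n + 1), ∑ w ∈ univ.filter (fun w : Fin (n + 1) → V =>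
      univ.image w ∈ H), (τ * (if w j = v then 1 else 0)) *
        ∏ i ∈ univ.erase j, ((1 - τ) * x (w i)) = τ * ((1 - τ) ^ n * ldens H n v x) := by
    intro j
    rw [Finset.sum_filter, Lagr_split n j]
    have h2 : ∀ (u : V) (w : Fin n → V), (if univ.image (j.insertNth u w : Fin (n + 1) → V) ∈ H then
        (τ * (if (j.insertNth u w : Fin (n + 1) → V) j = v then 1 else 0)) *
        ∏ i ∈ univ.erase j, ((1 - τ) * x ((j.insertNth u w : Fin (n + 1) → V) i)) else 0) =
        if u = v then (τ * ((1 - τ) ^ n * (if insert v (univ.image w) ∈ H then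
          ∏ i, x (w i) else 0))) else 0 := by
      intro u w
      rw [Lagr_image_insertNth, Fin.insertNth_apply_same]
      have h3 : ∏ i ∈ univ.erase j, ((1 - τ) * x ((j.insertNth u w : Fin (n + 1) → V) i)) =
          (1 - τ) ^ n * ∏ i, x (w i) := by
        have h4 : ∏ i ∈ univ.erase j, ((1 - τ) * x ((j.insertNth u w : Fin (n + 1) → V) i)) =
            ∏ i ∈ univ.erase j, (if i = j then 1 else
              ((1 - τ) * x ((j.insertNth u w : Fin (n + 1) → V) i))) := by
          apply Finset.prod_congr rfl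
          intro i hi
          rw [if_neg (Finset.ne_of_mem_erase hi)]
        rw [h4, Finset.prod_erase univ (f := fun i => if i = j then (1 : ℝ) else
            ((1 - τ) * x ((j.insertNth u w : Fin (n + 1) → V) i))) (a := j) (if_pos rfl),
          Fin.prod_univ_succAbove _ j, if_pos rfl, one_mul]
        have h5 : ∀ i : Fin n, (if j.succAbove i = j then (1 : ℝ) else
            ((1 - τ) * x ((j.insertNth u w : Fin (n + 1) → V) (j.succAbove i)))) =
            (1 - τ) * x (w i) := by
          intro i
          rw [if_neg (Fin.succAbove_ne j i), Fin.insertNth_apply_succAbove]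
        rw [Finset.prod_congr rfl (fun i _ => h5 i), Finset.prod_mul_distrib, Finset.prod_const,
          Finset.card_univ, Fintype.card_fin]
      rw [h3]
      by_cases huv : u = v
      · subst huv
        rw [if_pos rfl, if_pos rfl]
        split_ifs with h6
        · ring
        · ring
      · rw [if_neg huv, if_neg huv]
        simp
    simp only [h2]
    rw [Finset.sum_comm]
    simp only [Finset.sum_ite_eq', Finset.mem_univ, if_true]
    unfold ldens
    rw [Finset.sum_filter, Finset.mul_sum, Finset.mul_sum]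
  have hle : ∀ w : Fin (n + 1) → V, ∏ i, ((1 - τ) * x (w i)) +
      ∑ j, (τ * (if w j = v then 1 else 0)) * ∏ i ∈ univ.erase j, ((1 - τ) * x (w i)) ≤
      ∏ i, ((1 - τ) * x (w i) + τ * (if w i = v then 1 else 0)) := by
    intro w
    apply prod_add_ge
    · intro i
      exact mul_nonneg (by linarith) (hx _)
    · intro i
      apply mul_nonneg h0
      split_ifs <;> norm_num
  have hsum := Finset.sum_le_sum (s := univ.filter (fun w : Fin (n + 1) → V => univ.image w ∈ H))
    fun w _ => hle w
  rw [Finset.sum_add_distrib, Finset.sum_comm, Finset.sum_congr rfl (fun j _ => hsplit j),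
    Finset.sum_const, Finset.card_univ, Fintype.card_fin, nsmul_eq_mul] at hsum
  have hfirst : ∑ w ∈ univ.filter (fun w : Fin (n + 1) → V => univ.image w ∈ H),
      ∏ i, ((1 - τ) * x (w i)) = (1 - τ) ^ (n + 1) * dens H n x := by
    unfold dens
    rw [Finset.mul_sum]
    apply Finset.sum_congr rfl
    intro w _
    rw [Finset.prod_mul_distrib, Finset.prod_const, Finset.card_univ, Fintype.card_fin]
  rw [hfirst] at hsum
  push_cast at hsum
  exact hsum

end Pool.Agent.Lib.MP_455133_co.BO
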