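import Mathlib
import Pool.Agent.Lib.MP_455133_co.BO.Cfg

/-!
Minimax for covers.
-/

namespace Pool.Agent.Lib.MP_455133_co.BO

open Finset

/-- Minimax (`Sion.exists_isSaddlePointOn'` in `Mathlib/Topology/Sion.lean`, with the bilinear
function `f w μ = ∑ y, μ y * wt w (I y)` on the two simplices). -/
theorem minimax_cover {V Y : Type} [Fintype V] [DecidableEq V] [Fintype Y] [Nonempty V]
    (I : Y → Finset V) (σ : ℝ) (h : ∀ w ∈ stdSimplex ℝ V, ∃ y, σ ≤ wt w (I y)) :
    ∃ μ ∈ stdSimplex ℝ Y, ∀ v, σ ≤ ∑ y ∈ univ.filter (fun y => v ∈ I y), μ y := by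
  classical
  have hX : (stdSimplex ℝ V).Nonempty :=
    ⟨Pi.single (Classical.arbitrary V) 1, single_mem_stdSimplex ℝ _⟩
  have hY : (stdSimplex ℝ Y).Nonempty := by
    obtain ⟨w, hw⟩ := hX
    obtain ⟨y, _⟩ := h w hw
    exact ⟨Pi.single y 1, single_mem_stdSimplex ℝ _⟩
  obtain ⟨f, hf⟩ : ∃ f : (V → ℝ) → (Y → ℝ) → ℝ, f = fun w μ => ∑ y, μ y * wt w (I y) := ⟨_, rfl⟩
  have hl1 : ∀ μ : Y → ℝ, ∃ L : (V → ℝ) →ₗ[ℝ] ℝ, ∀ w, f w μ = L w := by
    intro μ
    refine ⟨∑ y, μ y • ∑ v ∈ I y, LinearMap.proj v, ?_⟩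
    intro w
    rw [hf]
    simp [wt, LinearMap.sum_apply]
  have hl2 : ∀ w : V → ℝ, ∃ L : (Y → ℝ) →ₗ[ℝ] ℝ, ∀ μ, f w μ = L μ := by
    intro w
    refine ⟨∑ y, wt w (I y) • LinearMap.proj y, ?_⟩
    intro μ
    rw [hf]
    simp only [LinearMap.sum_apply, LinearMap.smul_apply, LinearMap.proj_apply, smul_eq_mul]
    exact Finset.sum_congr rfl fun y _ => mul_comm _ _
  obtain ⟨a, ha, b, hb, hab⟩ := Sion.exists_isSaddlePointOn' (X := stdSimplex ℝ V)
    (Y := stdSimplex ℝ Y) (f := f) hX (isCompact_stdSimplex ℝ V)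
    (by
      intro μ _
      obtain ⟨L, hL⟩ := hl1 μ
      have e : (fun w => f w μ) = L := funext hL
      rw [e]
      exact (LinearMap.continuous_of_finiteDimensional L).lowerSemicontinuous.lowerSemicontinuousOn _)
    (by
      intro μ _
      obtain ⟨L, hL⟩ := hl1 μ
      have e : (fun w => f w μ) = L := funext hL
      rw [e]
      exact (L.convexOn (convex_stdSimplex ℝ V)).quasiconvexOn)
    (convex_stdSimplex ℝ Y) (isCompact_stdSimplex ℝ Y)
    (by
      intro w _
      obtain ⟨L, hL⟩ := hl2 w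
      have e : (fun μ => f w μ) = L := funext hL
      rw [e]
      exact (LinearMap.continuous_of_finiteDimensional L).upperSemicontinuous.upperSemicontinuousOn _)
    (by
      intro w _
      obtain ⟨L, hL⟩ := hl2 w
      have e : (fun μ => f w μ) = L := funext hL
      rw [e]
      exact (L.concaveOn (convex_stdSimplex ℝ Y)).quasiconcaveOn)
    (convex_stdSimplex ℝ V) hY
  refine ⟨b, hb, ?_⟩
  intro v
  obtain ⟨y, hy⟩ := h a ha
  have h1 := hab (Pi.single v 1) (single_mem_stdSimplex ℝ v) (Pi.single y 1)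
    (single_mem_stdSimplex ℝ y)
  have e1 : f a (Pi.single y 1) = wt a (I y) := by
    rw [hf]
    simp only
    rw [Finset.sum_eq_single y]
    · rw [Pi.single_eq_same, one_mul]
    · intro z _ hz
      rw [Pi.single_eq_of_ne hz, zero_mul]
    · intro hcon
      exact absurd (Finset.mem_univ y) hcon
  have e2 : f (Pi.single v 1) b = ∑ y ∈ univ.filter (fun y => v ∈ I y), b y := by
    rw [hf]
    simp only
    rw [Finset.sum_filter]
    refine Finset.sum_congr rfl fun z _ => ?_
    unfold wt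
    by_cases hz : v ∈ I z
    · rw [if_pos hz, Finset.sum_eq_single v]
      · rw [Pi.single_eq_same, mul_one]
      · intro u _ hu
        rw [Pi.single_eq_of_ne hu]
      · intro hcon
        exact absurd hz hcon
    · rw [if_neg hz, Finset.sum_eq_zero, mul_zero]
      intro u hu
      rw [Pi.single_eq_of_ne]
      rintro rfl
      exact hz hu
  rw [e1, e2] at h1
  exact hy.trans h1

end Pool.Agent.Lib.MP_455133_co.BO
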