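import Mathlib
import Pool.Agent.Lib.MP_455133_co.BO.Lagr

/-!
The maximum of the Lagrangian.
-/

namespace Pool.Agent.Lib.MP_455133_co.BO

open Finset

variable {V : Type} [Fintype V] [DecidableEq V]

private theorem opt_continuous (H : Finset (Finset V)) (n : ℕ) :
    Continuous fun x : V → ℝ => dens H n x := by
  unfold dens
  exact continuous_finsetSum _ fun w _ => continuous_finsetProd _ fun i _ => continuous_apply _

private theorem opt_move_mem {x : V → ℝ} (hx : x ∈ stdSimplex ℝ V) (v : V) {τ : ℝ}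
    (h0 : 0 ≤ τ) (h1 : τ ≤ 1) :
    (fun u => (1 - τ) * x u + τ * (if u = v then 1 else 0)) ∈ stdSimplex ℝ V := by
  refine ⟨fun u => ?_, ?_⟩
  · have h2 : (0 : ℝ) ≤ (if u = v then (1 : ℝ) else 0) := by split_ifs <;> norm_num
    have h3 := hx.1 u
    have h4 : 0 ≤ 1 - τ := by linarith
    positivity
  · rw [Finset.sum_add_distrib, ← Finset.mul_sum, ← Finset.mul_sum, hx.2,
      Finset.sum_ite_eq' univ v]
    simp

private theorem opt_le (H : Finset (Finset V)) (n : ℕ) {x : V → ℝ} (hx : x ∈ stdSimplex ℝ V)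
    (hmax : ∀ y ∈ stdSimplex ℝ V, dens H n y ≤ dens H n x) (v : V) :
    ldens H n v x ≤ dens H n x := by
  have hD := dens_nonneg H n hx.1
  have key : ∀ τ : ℝ, 0 < τ → τ ≤ 1 → (1 - τ) ^ n * ldens H n v x ≤ dens H n x := by
    intro τ h0 h1
    have h2 := dens_move H n hx.1 v h0.le h1
    have h3 := hmax _ (opt_move_mem hx v h0.le h1)
    have h4 := one_add_mul_le_pow (a := -τ) (by linarith) (n + 1)
    have h5 : (1 + -τ) ^ (n + 1) = (1 - τ) ^ (n + 1) := by ring
    rw [h5] at h4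
    push_cast at h4
    have h6 : ((n : ℝ) + 1) * (τ * ((1 - τ) ^ n * ldens H n v x)) ≤
        dens H n x * (((n : ℝ) + 1) * τ) := by
      have h7 : (n + 1) * (τ * ((1 - τ) ^ n * ldens H n v x)) ≤
          dens H n x * (1 - (1 - τ) ^ (n + 1)) := by linarith [h2.trans h3]
      refine h7.trans (mul_le_mul_of_nonneg_left ?_ hD)
      linarith
    have h8 : (0 : ℝ) < ((n : ℝ) + 1) * τ := by positivity
    by_contra h9
    push Not at h9
    have h10 := mul_lt_mul_of_pos_left h9 h8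
    linarith
  have hc : Filter.Tendsto (fun τ : ℝ => (1 - τ) ^ n * ldens H n v x) (nhdsWithin 0 (Set.Ioi 0))
      (nhds (ldens H n v x)) := by
    have h1 : Continuous fun τ : ℝ => (1 - τ) ^ n * ldens H n v x := by fun_prop
    have h2 := h1.tendsto 0
    simp only [sub_zero, one_pow, one_mul] at h2
    exact h2.mono_left nhdsWithin_le_nhds
  apply le_of_tendsto hc
  have h3 : Set.Ioc (0 : ℝ) 1 ∈ nhdsWithin (0 : ℝ) (Set.Ioi 0) :=
    Ioc_mem_nhdsGT one_pos
  filter_upwards [h3] with τ hτ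
  exact key τ hτ.1 hτ.2

/-- A maximiser exists (compactness of the simplex, continuity); from `dens_move` with `τ → 0`
and `1 - (1 - τ)^(n+1) ≤ (n+1) τ` one gets `ldens v x ≤ dens x` for every `v`, and by `dens_eq`
equality whenever `x v > 0`. -/
theorem exists_opt [Nonempty V] (H : Finset (Finset V)) (n : ℕ) :
    ∃ x ∈ stdSimplex ℝ V, (∀ y ∈ stdSimplex ℝ V, dens H n y ≤ dens H n x) ∧
      ∀ v, 0 < x v → ldens H n v x = dens H n x := by
  obtain ⟨v₀⟩ := ‹Nonempty V›
  have hne : (stdSimplex ℝ V).Nonempty := ⟨_, ite_eq_mem_stdSimplex ℝ v₀⟩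
  obtain ⟨x, hx, hmax⟩ := (isCompact_stdSimplex ℝ V).exists_isMaxOn hne
    (opt_continuous H n).continuousOn
  have hmax' : ∀ y ∈ stdSimplex ℝ V, dens H n y ≤ dens H n x := fun y hy => hmax hy
  refine ⟨x, hx, hmax', fun v hv => ?_⟩
  have hle := opt_le H n hx hmax'
  have h1 : ∑ u, x u * (dens H n x - ldens H n u x) = 0 := by
    have h2 := dens_eq H n x
    simp_rw [mul_sub]
    rw [Finset.sum_sub_distrib, ← Finset.sum_mul, hx.2, one_mul, ← h2, sub_self]
  have h3 := (Finset.sum_eq_zero_iff_of_nonneg (s := univ) fun u _ =>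
    mul_nonneg (hx.1 u) (sub_nonneg.2 (hle u))).1 h1 v (Finset.mem_univ v)
  rcases mul_eq_zero.1 h3 with h4 | h4
  · exact absurd h4 hv.ne'
  · linarith

end Pool.Agent.Lib.MP_455133_co.BO
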