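import Mathlib
import Pool.Agent.Lib.MP_455133_co.BO.Lagr

/-!
Counting for patterns.
-/

namespace Pool.Agent.Lib.MP_455133_co.BO

open Finset

/-- The number of maps with a given image of full size. -/
theorem PattA_fib {α β : Type} [Fintype α] [DecidableEq α] [Fintype β] [DecidableEq β]
    (h : Finset β) (hh : h.card = Fintype.card α) :
    (univ.filter fun y : α → β => univ.image y = h).card = (Fintype.card α).factorial := by
  classical
  have hc : Fintype.card α = Fintype.card h := by simp [hh]
  obtain ⟨e0⟩ : Nonempty (α ≃ h) := Fintype.card_eq.mp hc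
  rw [← Fintype.card_equiv e0, ← card_univ]
  symm
  apply card_bij (fun (e : α ≃ h) _ => fun a => ((e a : h) : β))
  · intro e _
    simp only [mem_filter, mem_univ, true_and]
    ext b
    simp only [mem_image, mem_univ, true_and]
    constructor
    · rintro ⟨a, rfl⟩
      exact (e a).2
    · intro hb
      exact ⟨e.symm ⟨b, hb⟩, by simp⟩
  · intro e _ e' _ hee
    ext a
    exact congrFun hee a
  · intro y hy
    simp only [mem_filter, mem_univ, true_and] at hy
    have hmem : ∀ a, y a ∈ h := fun a => by
      rw [← hy]; exact mem_image_of_mem y (mem_univ a)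
    have hbij : Function.Bijective (fun a => (⟨y a, hmem a⟩ : h)) := by
      rw [Fintype.bijective_iff_surjective_and_card]
      refine ⟨?_, hc⟩
      rintro ⟨b, hb⟩
      rw [← hy, mem_image] at hb
      obtain ⟨a, -, ha⟩ := hb
      exact ⟨a, Subtype.ext ha⟩
    exact ⟨Equiv.ofBijective _ hbij, mem_univ _, by ext a; simp⟩

/-- The number of maps whose image is a member of a family of sets of full size. -/
theorem PattA_count {α β : Type} [Fintype α] [DecidableEq α] [Fintype β] [DecidableEq β]
    (H : Finset (Finset β)) (hH : ∀ h ∈ H, h.card = Fintype.card α) :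
    (univ.filter fun y : α → β => univ.image y ∈ H).card =
      (Fintype.card α).factorial * H.card := by
  classical
  have h1 : (univ.filter fun y : α → β => univ.image y ∈ H) =
      H.biUnion (fun h => univ.filter fun y : α → β => univ.image y = h) := by
    ext y
    simp
  rw [h1, card_biUnion]
  · rw [sum_congr rfl fun h hh => PattA_fib h (hH h hh), sum_const, smul_eq_mul, mul_comm]
  · intro h _ h' _ hne
    rw [Function.onFun, disjoint_left]
    intro y hy hy'
    simp only [mem_filter, mem_univ, true_and] at hy hy'
    exact hne (hy.symm.trans hy')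

/-- For a fixed `e` with `card e = n + 1`, the number of `x : Fin m → Fin N` with `e.image x ∈ H`
is `(n+1)! * card H * N ^ (m - (n+1))` (all members of `H` have `n + 1` elements). -/
theorem count_image {m n N : ℕ} (H : Finset (Finset (Fin N))) (hH : ∀ e ∈ H, e.card = n + 1)
    (e : Finset (Fin m)) (he : e.card = n + 1) :
    (univ.filter fun x : Fin m → Fin N => e.image x ∈ H).card =
      (n + 1).factorial * H.card * N ^ (m - (n + 1)) := by
  classical
  have hce : Fintype.card {i // i ∈ e} = n + 1 := by simp [he]
  have hcc : Fintype.card {i // ¬ i ∈ e} = m - (n + 1) := by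
    rw [Fintype.card_subtype_compl]; simp [he]
  have key := PattA_count (α := {i // i ∈ e}) H (fun h hh => by rw [hH h hh, hce])
  rw [hce] at key
  rw [← key]
  have h2 : N ^ (m - (n + 1)) = (univ : Finset ({i // ¬ i ∈ e} → Fin N)).card := by
    rw [card_univ, Fintype.card_fun, hcc]; simp
  rw [h2, ← card_product]
  apply card_bij (fun (x : Fin m → Fin N) _ =>
    ((fun i : {i // i ∈ e} => x i), (fun i : {i // ¬ i ∈ e} => x i)))
  · intro x hx
    simp only [mem_filter, mem_univ, true_and] at hx
    simp only [mem_product, mem_filter, mem_univ, true_and, and_true]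
    have : (univ.image fun i : {i // i ∈ e} => x i) = e.image x := by
      ext b; simp
    rw [this]; exact hx
  · intro x _ x' _ hxx
    rw [Prod.mk.injEq] at hxx
    ext i
    by_cases hi : i ∈ e
    · exact congrArg Fin.val (congrFun hxx.1 ⟨i, hi⟩)
    · exact congrArg Fin.val (congrFun hxx.2 ⟨i, hi⟩)
  · rintro ⟨y, z⟩ hyz
    simp only [mem_product, mem_filter, mem_univ, true_and, and_true] at hyz
    refine ⟨fun i => if h : i ∈ e then y ⟨i, h⟩ else z ⟨i, h⟩, ?_, ?_⟩
    · simp only [mem_filter, mem_univ, true_and]
      have : (e.image fun i => if h : i ∈ e then y ⟨i, h⟩ else z ⟨i, h⟩) = univ.image y := by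
        ext b
        simp only [mem_image, mem_univ, true_and]
        constructor
        · rintro ⟨i, hi, hb⟩
          rw [dif_pos hi] at hb
          exact ⟨⟨i, hi⟩, hb⟩
        · rintro ⟨⟨i, hi⟩, hb⟩
          exact ⟨i, hi, by rw [dif_pos hi]; exact hb⟩
      rw [this]; exact hyz
    · rw [Prod.mk.injEq]
      constructor
      · ext ⟨i, hi⟩; simp [hi]
      · ext ⟨i, hi⟩; simp [hi]

/-- The pattern of `x`. -/
def patt {m N : ℕ} (n : ℕ) (H : Finset (Finset (Fin N))) (x : Fin m → Fin N) :
    Finset (Finset (Fin m)) :=
  (powersetCard (n + 1) (univ : Finset (Fin m))).filter fun e => e.image x ∈ H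

/-- `dens Q n (1/m) = (n+1)! * card Q / m ^ (n+1)`: each member of `Q` is the set of entries of
`(n+1)!` tuples. -/
theorem dens_uniform {m n : ℕ} (Q : Finset (Finset (Fin m))) (hQ : ∀ e ∈ Q, e.card = n + 1) :
    dens Q n (fun _ => 1 / (m : ℝ)) = (n + 1).factorial * Q.card / (m : ℝ) ^ (n + 1) := by
  classical
  unfold dens
  simp only [prod_const, card_univ, Fintype.card_fin, sum_const, nsmul_eq_mul]
  rw [PattA_count Q (fun h hh => by rw [hQ h hh]; simp)]
  simp only [Fintype.card_fin]
  push_cast
  rw [one_div, inv_pow, div_eq_mul_inv]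

/-- There are few tuples which are not injective. -/
theorem card_not_inj (m N : ℕ) :
    (univ.filter fun x : Fin m → Fin N => ¬ Function.Injective x).card ≤ m ^ 2 * N ^ (m - 1) := by
  classical
  have hsub : (univ.filter fun x : Fin m → Fin N => ¬ Function.Injective x) ⊆
      ((univ : Finset (Fin m × Fin m)).filter fun q => q.1 ≠ q.2).biUnion
        (fun q => univ.filter fun x : Fin m → Fin N => x q.1 = x q.2) := by
    intro x hx
    simp only [mem_filter, mem_univ, true_and] at hx
    rw [Function.Injective] at hx
    push Not at hx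
    obtain ⟨i, j, hij, hne⟩ := hx
    simp only [mem_biUnion, mem_filter, mem_univ, true_and]
    exact ⟨(i, j), hne, hij⟩
  refine (card_le_card hsub).trans (card_biUnion_le.trans ?_)
  have hb : ∀ q ∈ ((univ : Finset (Fin m × Fin m)).filter fun q => q.1 ≠ q.2),
      (univ.filter fun x : Fin m → Fin N => x q.1 = x q.2).card ≤ N ^ (m - 1) := by
    rintro ⟨i, j⟩ hq
    simp only [mem_filter, mem_univ, true_and, ne_eq] at hq
    have hcard : N ^ (m - 1) = (univ : Finset ({k : Fin m // k ≠ j} → Fin N)).card := by
      rw [card_univ, Fintype.card_fun]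
      simp
    rw [hcard]
    apply card_le_card_of_injOn (fun x (k : {k : Fin m // k ≠ j}) => x k)
    · intro x _; exact mem_coe.mpr (mem_univ _)
    · intro x hx x' hx' hxx
      simp only [coe_filter, mem_univ, true_and, Set.mem_setOf_eq] at hx hx'
      ext k
      by_cases hk : k = j
      · subst hk
        rw [← hx, ← hx']
        exact congrArg Fin.val (congrFun hxx ⟨i, hq⟩)
      · exact congrArg Fin.val (congrFun hxx ⟨k, hk⟩)
  refine (sum_le_sum hb).trans ?_
  rw [sum_const, smul_eq_mul]
  apply Nat.mul_le_mul_right
  refine (card_filter_le _ _).trans ?_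
  rw [card_univ, Fintype.card_prod, Fintype.card_fin, sq]

end Pool.Agent.Lib.MP_455133_co.BO
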