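import Mathlib
import Pool.Agent.Lib.MP_455133_co.BO.Erdos
import Pool.Agent.Lib.MP_455133_co.BO.PattA

/-!
A dense family of `(n+1)`-subsets of `Fin N` contains large blow-ups of a dense pattern.
-/

namespace Pool.Agent.Lib.MP_455133_co.BO

open Finset

private theorem Patt_desc (n N : ℕ) (hN : 0 < N) :
    (1 - ((n : ℝ) + 1) * n / N) * (N : ℝ) ^ (n + 1) ≤
      ((n + 1).factorial : ℝ) * (N.choose (n + 1) : ℝ) := by
  have hNr : (0 : ℝ) < N := by exact_mod_cast hN
  rcases Nat.lt_or_ge N n with h | h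
  · have h1 : (N : ℝ) ≤ n := by exact_mod_cast h.le
    have h2 : (1 : ℝ) ≤ ((n : ℝ) + 1) * n / N := by
      rw [le_div_iff₀ hNr]
      have h3 : (0 : ℝ) ≤ n := Nat.cast_nonneg n
      nlinarith
    have h3 : (1 - ((n : ℝ) + 1) * n / N) * (N : ℝ) ^ (n + 1) ≤ 0 :=
      mul_nonpos_of_nonpos_of_nonneg (by linarith) (by positivity)
    exact h3.trans (by positivity)
  · have h1 : ((n + 1).factorial : ℝ) * (N.choose (n + 1) : ℝ) =
        (N.descFactorial (n + 1) : ℝ) := by
      rw [Nat.descFactorial_eq_factorial_mul_choose]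
      push_cast
      ring
    rw [h1]
    have h2 := Nat.pow_sub_le_descFactorial N (n + 1)
    have h3 : N + 1 - (n + 1) = N - n := by omega
    rw [h3] at h2
    have h4 : (((N - n) ^ (n + 1) : ℕ) : ℝ) ≤ (N.descFactorial (n + 1) : ℝ) := by
      exact_mod_cast h2
    refine le_trans ?_ h4
    rw [Nat.cast_pow, Nat.cast_sub h]
    have h5 : (N : ℝ) - n = N * (1 + -((n : ℝ) / N)) := by
      field_simp
      ring
    rw [h5, mul_pow, mul_comm]
    apply mul_le_mul_of_nonneg_left _ (by positivity)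
    have h6 : (n : ℝ) / N ≤ 1 := by
      rw [div_le_one hNr]
      exact_mod_cast h
    have h7 := one_add_mul_le_pow (a := -((n : ℝ) / N)) (by linarith) (n + 1)
    refine le_trans (le_of_eq ?_) h7
    push_cast
    ring

/-- averaging for one family -/
private theorem Patt_avg {m n N : ℕ} (hmn : n + 1 ≤ m) {D η : ℝ} (hD : 0 ≤ D) (hη : 0 < η)
    (hN : 0 < N) (hN1 : ((D + η) * ((n : ℝ) + 1) * n + (m : ℝ) ^ 2) ≤ η / 4 * N)
    (H : Finset (Finset (Fin N))) (hH : ∀ e ∈ H, e.card = n + 1)
    (hc : (D + η) * (N.choose (n + 1) : ℝ) ≤ H.card) :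
    η / 4 * (N : ℝ) ^ m ≤ ((univ.filter fun x : Fin m → Fin N => Function.Injective x ∧
      (D + η / 2) * (m.choose (n + 1) : ℝ) ≤ ((patt n H x).card : ℝ)).card : ℝ) := by
  classical
  have hNr : (0 : ℝ) < N := by exact_mod_cast hN
  set G := univ.filter fun x : Fin m → Fin N => Function.Injective x ∧
      (D + η / 2) * (m.choose (n + 1) : ℝ) ≤ ((patt n H x).card : ℝ) with hG
  set J := univ.filter fun x : Fin m → Fin N => ¬ Function.Injective x with hJ
  set C : ℝ := (m.choose (n + 1) : ℝ) with hC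
  have hCpos : 0 < C := by
    rw [hC]
    exact_mod_cast Nat.choose_pos hmn
  -- the sum
  have hsum : ∑ x : Fin m → Fin N, ((patt n H x).card : ℝ) =
      C * ((n + 1).factorial * H.card * (N : ℝ) ^ (m - (n + 1))) := by
    have h1 : ∑ x : Fin m → Fin N, (patt n H x).card =
        ∑ e ∈ powersetCard (n + 1) (univ : Finset (Fin m)),
          (univ.filter fun x : Fin m → Fin N => e.image x ∈ H).card := by
      unfold patt
      simp only [Finset.card_filter]
      rw [Finset.sum_comm]
    have h2 : ∑ e ∈ powersetCard (n + 1) (univ : Finset (Fin m)),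
          (univ.filter fun x : Fin m → Fin N => e.image x ∈ H).card =
        ∑ _e ∈ powersetCard (n + 1) (univ : Finset (Fin m)),
          (n + 1).factorial * H.card * N ^ (m - (n + 1)) :=
      Finset.sum_congr rfl fun e he =>
        count_image H hH e (Finset.mem_powersetCard.1 he).2
    rw [h2, Finset.sum_const, Finset.card_powersetCard, Finset.card_univ, Fintype.card_fin,
      smul_eq_mul] at h1
    have h3 : ((∑ x : Fin m → Fin N, (patt n H x).card : ℕ) : ℝ) =
        ((m.choose (n + 1) * ((n + 1).factorial * H.card * N ^ (m - (n + 1))) : ℕ) : ℝ) := by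
      rw [h1]
    push_cast at h3
    exact h3
  -- lower bound for the sum
  have hlow : C * ((D + η) * (1 - ((n : ℝ) + 1) * n / N)) * (N : ℝ) ^ m ≤
      ∑ x : Fin m → Fin N, ((patt n H x).card : ℝ) := by
    rw [hsum]
    have h1 := Patt_desc n N hN
    have h2 : (D + η) * ((1 - ((n : ℝ) + 1) * n / N) * (N : ℝ) ^ (n + 1)) ≤
        (n + 1).factorial * H.card := by
      calc (D + η) * ((1 - ((n : ℝ) + 1) * n / N) * (N : ℝ) ^ (n + 1)) ≤
          (D + η) * (((n + 1).factorial : ℝ) * (N.choose (n + 1) : ℝ)) :=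
            mul_le_mul_of_nonneg_left h1 (by linarith)
        _ = ((n + 1).factorial : ℝ) * ((D + η) * (N.choose (n + 1) : ℝ)) := by ring
        _ ≤ (n + 1).factorial * H.card := mul_le_mul_of_nonneg_left hc (by positivity)
    have h3 : (N : ℝ) ^ m = (N : ℝ) ^ (n + 1) * (N : ℝ) ^ (m - (n + 1)) := by
      rw [← pow_add]
      congr 1
      omega
    rw [h3]
    have h4 : C * ((D + η) * (1 - ((n : ℝ) + 1) * n / N)) *
        ((N : ℝ) ^ (n + 1) * (N : ℝ) ^ (m - (n + 1))) =
        C * ((D + η) * ((1 - ((n : ℝ) + 1) * n / N) * (N : ℝ) ^ (n + 1)) *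
          (N : ℝ) ^ (m - (n + 1))) := by ring
    rw [h4]
    apply mul_le_mul_of_nonneg_left _ hCpos.le
    exact mul_le_mul_of_nonneg_right h2 (by positivity)
  -- upper bound for the sum
  have hpt : ∀ x : Fin m → Fin N, ((patt n H x).card : ℝ) ≤
      (if x ∈ G then C else 0) + (if x ∈ J then C else 0) + (D + η / 2) * C := by
    intro x
    have h1 : ((patt n H x).card : ℝ) ≤ C := by
      rw [hC]
      have h2 : (patt n H x).card ≤ m.choose (n + 1) := by
        unfold patt
        refine (Finset.card_filter_le _ _).trans ?_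
        rw [Finset.card_powersetCard, Finset.card_univ, Fintype.card_fin]
      exact_mod_cast h2
    have h0 : 0 ≤ (D + η / 2) * C := by positivity
    by_cases hx : x ∈ J
    · rw [if_pos hx]
      have h3 : (0 : ℝ) ≤ if x ∈ G then C else 0 := by
        split_ifs
        · exact hCpos.le
        · exact le_rfl
      linarith
    · rw [if_neg hx]
      have hinj : Function.Injective x := by
        by_contra hcon
        exact hx (by rw [hJ, Finset.mem_filter]; exact ⟨Finset.mem_univ _, hcon⟩)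
      by_cases hg : x ∈ G
      · rw [if_pos hg]
        linarith
      · rw [if_neg hg]
        have h3 : ¬ (D + η / 2) * C ≤ ((patt n H x).card : ℝ) := by
          intro h4
          exact hg (by rw [hG, Finset.mem_filter]; exact ⟨Finset.mem_univ _, hinj, h4⟩)
        push Not at h3
        linarith
  have hup : ∑ x : Fin m → Fin N, ((patt n H x).card : ℝ) ≤
      G.card * C + J.card * C + (N : ℝ) ^ m * ((D + η / 2) * C) := by
    refine (Finset.sum_le_sum fun x _ => hpt x).trans (le_of_eq ?_)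
    rw [Finset.sum_add_distrib, Finset.sum_add_distrib, Finset.sum_const, Finset.card_univ,
      Fintype.card_fun, Fintype.card_fin, Fintype.card_fin, ← Finset.sum_filter,
      ← Finset.sum_filter, Finset.sum_const, Finset.sum_const, nsmul_eq_mul, nsmul_eq_mul,
      nsmul_eq_mul]
    have h1 : (univ.filter fun x => x ∈ G) = G := by
      ext x
      simp
    have h2 : (univ.filter fun x => x ∈ J) = J := by
      ext x
      simp
    rw [h1, h2]
    push_cast
    ring
  have hJc : (J.card : ℝ) ≤ (m : ℝ) ^ 2 * (N : ℝ) ^ (m - 1) := by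
    have h1 := card_not_inj m N
    exact_mod_cast h1
  have hNm : (N : ℝ) ^ m = N * (N : ℝ) ^ (m - 1) := by
    rw [← pow_succ']
    congr 1
    omega
  -- divide by C
  have h1 := hlow.trans hup
  have h2 : (D + η) * (1 - ((n : ℝ) + 1) * n / N) * (N : ℝ) ^ m ≤
      G.card + J.card + (N : ℝ) ^ m * (D + η / 2) := by
    have h3 : C * ((D + η) * (1 - ((n : ℝ) + 1) * n / N) * (N : ℝ) ^ m) ≤
        C * (G.card + J.card + (N : ℝ) ^ m * (D + η / 2)) := by
      refine le_trans (le_of_eq (by ring)) (h1.trans (le_of_eq (by ring)))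
    exact le_of_mul_le_mul_left h3 hCpos
  have h3 : (D + η) * (1 - ((n : ℝ) + 1) * n / N) * (N : ℝ) ^ m =
      (D + η) * (N : ℝ) ^ m - (D + η) * ((n : ℝ) + 1) * n * (N : ℝ) ^ (m - 1) := by
    rw [hNm]
    field_simp
  have h4 : ((D + η) * ((n : ℝ) + 1) * n + (m : ℝ) ^ 2) * (N : ℝ) ^ (m - 1) ≤
      η / 4 * N * (N : ℝ) ^ (m - 1) := mul_le_mul_of_nonneg_right hN1 (by positivity)
  have h5 : η / 4 * N * (N : ℝ) ^ (m - 1) = η / 4 * (N : ℝ) ^ m := by
    rw [hNm]
    ring
  rw [h3] at h2
  rw [h5] at h4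
  nlinarith

/-- Averaging: `∑_x card (patt x) = C(m, n+1) (n+1)! card H N ^ (m-(n+1))` by `count_image`, and
`(n+1)! C(N, n+1) / N ^ (n+1) → 1`; so for `N` large at least `(η / 4) N ^ m` of the tuples `x` are
injective with `card (patt x) ≥ (D + η / 2) C(m, n+1)`. Choose `m` with
`(D + η / 2) (n+1)! C(m, n+1) / m ^ (n+1) > D`. There are at most `2 ^ (2 ^ m)` patterns, so one
pattern `Q` belongs to at least `(η / 4) / 2 ^ (2 ^ m) N ^ m` of these tuples; apply `erdos_box`
(the boxes consist of injective tuples, so the `B i` are pairwise disjoint, for `t ≥ 1`). -/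
theorem pattern (n : ℕ) {D η : ℝ} (hD : 0 ≤ D) (hη : 0 < η) : ∃ m : ℕ, 0 < m ∧
    ∀ t : ℕ, 1 ≤ t → ∃ N₀ : ℕ, ∀ N : ℕ, N₀ ≤ N → ∀ H : Finset (Finset (Fin N)),
    (∀ e ∈ H, e.card = n + 1) → (D + η) * (N.choose (n + 1) : ℝ) ≤ H.card →
    ∃ Q : Finset (Finset (Fin m)), (∀ e ∈ Q, e.card = n + 1) ∧
      D < dens Q n (fun _ => 1 / (m : ℝ)) ∧
      ∃ B : Fin m → Finset (Fin N), (∀ i, (B i).card = t) ∧
        (∀ i j, i ≠ j → Disjoint (B i) (B j)) ∧
        ∀ e ∈ Q, ∀ x : Fin m → Fin N, (∀ i, x i ∈ B i) → e.image x ∈ H := by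
  classical
  -- the choice of m
  obtain ⟨m0, hm0⟩ := exists_nat_gt (((n : ℝ) + 1) * n * (D + η / 2) / (η / 2))
  set m : ℕ := m0 + n + 1 with hm
  have hmpos : 0 < m := by omega
  have hmr : (0 : ℝ) < m := by exact_mod_cast hmpos
  have hmn : n + 1 ≤ m := by omega
  have hmbig : ((n : ℝ) + 1) * n * (D + η / 2) / (η / 2) < m := by
    refine hm0.trans_le ?_
    have : m0 ≤ m := by omega
    exact_mod_cast this
  have hdens : D < (D + η / 2) * (((n + 1).factorial : ℝ) * (m.choose (n + 1) : ℝ) /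
      (m : ℝ) ^ (n + 1)) := by
    have h1 := Patt_desc n m hmpos
    have h2 : 1 - ((n : ℝ) + 1) * n / m ≤
        ((n + 1).factorial : ℝ) * (m.choose (n + 1) : ℝ) / (m : ℝ) ^ (n + 1) := by
      rw [le_div_iff₀ (by positivity)]
      exact h1
    have h3 : D < (D + η / 2) * (1 - ((n : ℝ) + 1) * n / m) := by
      rw [div_lt_iff₀ (by positivity)] at hmbig
      have h4 : (D + η / 2) * (1 - ((n : ℝ) + 1) * n / m) =
          D + η / 2 - ((n : ℝ) + 1) * n * (D + η / 2) / m := by ring
      rw [h4]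
      have h5 : ((n : ℝ) + 1) * n * (D + η / 2) / m < η / 2 := by
        rw [div_lt_iff₀ hmr]
        linarith
      linarith
    exact h3.trans_le (mul_le_mul_of_nonneg_left h2 (by positivity))
  refine ⟨m, hmpos, fun t ht => ?_⟩
  set P : ℕ := (powerset (powersetCard (n + 1) (univ : Finset (Fin m)))).card with hP
  have hPpos : (0 : ℝ) < P := by
    have : 0 < P := Finset.card_pos.2 ⟨∅, Finset.empty_mem_powerset _⟩
    exact_mod_cast this
  obtain ⟨N1, hN1⟩ := erdos_box m t (ε := η / 4 / P) (by positivity)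
  obtain ⟨N2, hN2⟩ := exists_nat_ge (((D + η) * ((n : ℝ) + 1) * n + (m : ℝ) ^ 2) / (η / 4))
  refine ⟨max (max N1 N2) 1, fun N hN H hH hc => ?_⟩
  have hNpos : 0 < N := lt_of_lt_of_le one_pos ((le_max_right _ _).trans hN)
  have hNN1 : N1 ≤ N := ((le_max_left _ _).trans (le_max_left _ _)).trans hN
  have hNN2 : N2 ≤ N := ((le_max_right _ _).trans (le_max_left _ _)).trans hN
  have hlarge : ((D + η) * ((n : ℝ) + 1) * n + (m : ℝ) ^ 2) ≤ η / 4 * N := by
    have h1 : (N2 : ℝ) ≤ N := by exact_mod_cast hNN2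
    have h2 := hN2.trans h1
    rw [div_le_iff₀ (by positivity)] at h2
    linarith
  have hG := Patt_avg hmn hD hη hNpos hlarge H hH hc
  set G := univ.filter fun x : Fin m → Fin N => Function.Injective x ∧
      (D + η / 2) * (m.choose (n + 1) : ℝ) ≤ ((patt n H x).card : ℝ) with hGdef
  obtain ⟨Q, hQmem, hQ⟩ := Finset.exists_le_card_fiber_of_nsmul_le_card_of_maps_to
    (s := G) (t := powerset (powersetCard (n + 1) (univ : Finset (Fin m))))
    (f := fun x => patt n H x) (b := η / 4 / P * (N : ℝ) ^ m)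
    (fun x _ => by
      rw [Finset.mem_powerset]
      exact Finset.filter_subset _ _)
    ⟨∅, Finset.empty_mem_powerset _⟩
    (by
      rw [nsmul_eq_mul, ← hP]
      have h1 : (P : ℝ) * (η / 4 / P * (N : ℝ) ^ m) = η / 4 * (N : ℝ) ^ m := by
        field_simp
      rw [h1]
      exact hG)
  obtain ⟨B, hBc, hBT⟩ := hN1 N hNN1 (G.filter fun x => patt n H x = Q) hQ
  have hne : ∀ i, ∃ a, a ∈ B i := fun i => by
    have h1 : 0 < (B i).card := by
      rw [hBc i]
      omega
    exact Finset.card_pos.1 h1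
  choose a ha using hne
  have hT : ∀ x : Fin m → Fin N, (∀ i, x i ∈ B i) → Function.Injective x ∧
      (D + η / 2) * (m.choose (n + 1) : ℝ) ≤ (Q.card : ℝ) ∧ patt n H x = Q := by
    intro x hx
    have h1 := hBT x hx
    rw [Finset.mem_filter] at h1
    have h2 := h1.1
    rw [hGdef, Finset.mem_filter] at h2
    refine ⟨h2.2.1, ?_, h1.2⟩
    rw [← h1.2]
    exact h2.2.2
  have hQc : ∀ e ∈ Q, e.card = n + 1 := by
    intro e he
    rw [Finset.mem_powerset] at hQmem
    exact (Finset.mem_powersetCard.1 (hQmem he)).2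
  refine ⟨Q, hQc, ?_, B, hBc, ?_, ?_⟩
  · rw [dens_uniform Q hQc]
    have h1 := (hT a ha).2.1
    refine hdens.trans_le ?_
    rw [mul_div_assoc']
    apply div_le_div_of_nonneg_right _ (by positivity)
    calc (D + η / 2) * (((n + 1).factorial : ℝ) * (m.choose (n + 1) : ℝ)) =
        ((n + 1).factorial : ℝ) * ((D + η / 2) * (m.choose (n + 1) : ℝ)) := by ring
      _ ≤ ((n + 1).factorial : ℝ) * (Q.card : ℝ) := mul_le_mul_of_nonneg_left h1 (by positivity)
  · intro i j hij
    rw [Finset.disjoint_left]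
    intro b hbi hbj
    have h1 := (hT (fun l => if l = i ∨ l = j then b else a l) (fun l => by
      by_cases hl : l = i ∨ l = j
      · simp only [hl, if_true]
        rcases hl with rfl | rfl
        · exact hbi
        · exact hbj
      · simp only [hl, if_false]
        exact ha l)).1
    exact hij (h1 (by simp))
  · intro e he x hx
    have h1 := (hT x hx).2.2
    rw [← h1] at he
    unfold patt at he
    exact (Finset.mem_filter.1 he).2

end Pool.Agent.Lib.MP_455133_co.BO
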