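import Mathlib
import Pool.Agent.Lib.MP_455133_co.Defs
import Pool.Agent.Lib.MP_455133_co.BO.Cfg

/-!
The covering property on a blow-up of a pattern.
-/

namespace Pool.Agent.Lib.MP_455133_co.BO

open Finset Pool.Agent.Lib.MP_455133_co

/-- Choose `W i` elements of `B i` (possible as `W i ≤ t`), together a `t`-set `T`; it contains
some `A ∈ 𝒜`; let `I = {i | A ∩ B i ≠ ∅}`. Then `s = card A ≤ ∑_{i ∈ I} W i`, and if `e ∈ Q` had
`e ⊆ I`, pick `x i ∈ A ∩ B i` for `i ∈ I` (and any `x i ∈ B i` otherwise, `t ≥ 1`): `e.image x ⊆ A`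
is in the lower shadow. -/
theorem transfer {N n s t m : ℕ} (ht : 1 ≤ t) {𝒜 : Finset (Finset (Fin N))}
    (h𝒜 : IsCovering s t 𝒜) (Q : Finset (Finset (Fin m))) (hQ : ∀ e ∈ Q, e.card = n + 1)
    (B : Fin m → Finset (Fin N)) (hB : ∀ i, (B i).card = t)
    (hdis : ∀ i j, i ≠ j → Disjoint (B i) (B j))
    (hBQ : ∀ e ∈ Q, ∀ x : Fin m → Fin N, (∀ i, x i ∈ B i) →
      e.image x ∉ lowerShadow (n + 1) 𝒜)
    (W : Fin m → ℕ) (hW : ∑ i, W i = t) :
    ∃ I : Finset (Fin m), (∀ e ∈ Q, ¬ e ⊆ I) ∧ s ≤ ∑ i ∈ I, W i := by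
  classical
  have hWt : ∀ i, W i ≤ (B i).card := by
    intro i
    rw [hB, ← hW]
    exact Finset.single_le_sum (f := W) (fun j _ => Nat.zero_le _) (mem_univ i)
  choose T hTB hTc using fun i => Finset.exists_subset_card_eq (hWt i)
  have hTd : ∀ i ∈ (univ : Finset (Fin m)), ∀ j ∈ (univ : Finset (Fin m)), i ≠ j →
      Disjoint (T i) (T j) := fun i _ j _ hij =>
    Finset.disjoint_of_subset_left (hTB i) (Finset.disjoint_of_subset_right (hTB j) (hdis i j hij))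
  have hcard : (univ.biUnion T).card = t := by
    rw [Finset.card_biUnion hTd, ← hW]
    exact Finset.sum_congr rfl fun i _ => hTc i
  obtain ⟨A, hA, hAT⟩ := h𝒜.2 _ hcard
  refine ⟨univ.filter (fun i => (A ∩ B i).Nonempty), ?_, ?_⟩
  · intro e he hsub
    have hx : ∀ i, ∃ y, y ∈ B i ∧ ((A ∩ B i).Nonempty → y ∈ A) := by
      intro i
      by_cases h : (A ∩ B i).Nonempty
      · obtain ⟨y, hy⟩ := h
        rw [mem_inter] at hy
        exact ⟨y, hy.2, fun _ => hy.1⟩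
      · have h1 : (B i).Nonempty := by
          rw [← Finset.card_pos, hB]
          omega
        obtain ⟨y, hy⟩ := h1
        exact ⟨y, hy, fun h2 => absurd h2 h⟩
    choose x hxB hxA using hx
    have hinj : Function.Injective x := by
      intro i j hij
      by_contra hne
      exact (Finset.disjoint_left.1 (hdis i j hne)) (hxB i) (hij ▸ hxB j)
    apply hBQ e he x hxB
    unfold lowerShadow
    rw [mem_filter, mem_powersetCard]
    refine ⟨⟨subset_univ _, ?_⟩, A, hA, ?_⟩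
    · rw [Finset.card_image_of_injective _ hinj, hQ e he]
    · intro y hy
      obtain ⟨i, hi, rfl⟩ := mem_image.1 hy
      exact hxA i (mem_filter.1 (hsub hi)).2
  · rw [← h𝒜.1 A hA]
    have hsub : A ⊆ (univ.filter (fun i => (A ∩ B i).Nonempty)).biUnion T := by
      intro a ha
      obtain ⟨i, -, hi⟩ := mem_biUnion.1 (hAT ha)
      rw [mem_biUnion]
      exact ⟨i, mem_filter.2 ⟨mem_univ i, ⟨a, mem_inter.2 ⟨ha, hTB i hi⟩⟩⟩, hi⟩
    calc A.card ≤ ((univ.filter (fun i => (A ∩ B i).Nonempty)).biUnion T).card :=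
          Finset.card_le_card hsub
      _ ≤ ∑ i ∈ univ.filter (fun i => (A ∩ B i).Nonempty), (T i).card := Finset.card_biUnion_le
      _ = ∑ i ∈ univ.filter (fun i => (A ∩ B i).Nonempty), W i :=
          Finset.sum_congr rfl fun i _ => hTc i

/-- Apply `transfer` to `W i = ⌊t * w i⌋₊` plus the remainder (less than `m + 1`) at one vertex. -/
theorem transfer_real {N n s t m : ℕ} (hm : 0 < m) (ht : 1 ≤ t) {𝒜 : Finset (Finset (Fin N))}
    (h𝒜 : IsCovering s t 𝒜) (Q : Finset (Finset (Fin m))) (hQ : ∀ e ∈ Q, e.card = n + 1)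
    (B : Fin m → Finset (Fin N)) (hB : ∀ i, (B i).card = t)
    (hdis : ∀ i j, i ≠ j → Disjoint (B i) (B j))
    (hBQ : ∀ e ∈ Q, ∀ x : Fin m → Fin N, (∀ i, x i ∈ B i) →
      e.image x ∉ lowerShadow (n + 1) 𝒜)
    (w : Fin m → ℝ) (hw : w ∈ stdSimplex ℝ (Fin m)) :
    ∃ I : Finset (Fin m), (∀ e ∈ Q, ¬ e ⊆ I) ∧ ((s : ℝ) - m) / t ≤ wt w I := by
  classical
  have ht0 : (0 : ℝ) < t := by exact_mod_cast ht
  obtain ⟨hw0, hw1⟩ := hw
  let F : Fin m → ℕ := fun i => ⌊(t : ℝ) * w i⌋₊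
  have hF1 : ∀ i, (F i : ℝ) ≤ t * w i := fun i => Nat.floor_le (mul_nonneg ht0.le (hw0 i))
  have hF2 : ∀ i, (t : ℝ) * w i ≤ F i + 1 := fun i => (Nat.lt_floor_add_one _).le
  have hsum : ∑ i, (t : ℝ) * w i = t := by rw [← Finset.mul_sum, hw1, mul_one]
  have hle : ∑ i, F i ≤ t := by
    have h1 : (∑ i, (F i : ℝ)) ≤ t := by
      rw [← hsum]
      exact Finset.sum_le_sum fun i _ => hF1 i
    exact_mod_cast h1
  have hge : (t : ℝ) ≤ (∑ i, F i : ℕ) + m := by
    have h1 : (t : ℝ) ≤ ∑ i : Fin m, ((F i : ℝ) + 1) := by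
      conv_lhs => rw [← hsum]
      exact Finset.sum_le_sum fun i _ => hF2 i
    rw [Finset.sum_add_distrib] at h1
    push_cast
    simpa using h1
  let i0 : Fin m := ⟨0, hm⟩
  let R : ℕ := t - ∑ i, F i
  have hR : (R : ℝ) ≤ m := by
    have h1 : (R : ℝ) = t - (∑ i, F i : ℕ) := by
      show ((t - ∑ i, F i : ℕ) : ℝ) = _
      rw [Nat.cast_sub hle]
    rw [h1]
    linarith
  have hW : ∑ i, (F i + if i = i0 then R else 0) = t := by
    rw [Finset.sum_add_distrib, Finset.sum_ite_eq' univ i0 (fun _ => R), if_pos (mem_univ _)]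
    exact Nat.add_sub_cancel' hle
  obtain ⟨I, hI1, hI2⟩ := transfer ht h𝒜 Q hQ B hB hdis hBQ
    (fun i => F i + if i = i0 then R else 0) hW
  refine ⟨I, hI1, ?_⟩
  have h2 : (s : ℝ) ≤ ∑ i ∈ I, ((F i : ℝ) + if i = i0 then (R : ℝ) else 0) := by
    have h3 : (s : ℝ) ≤ ((∑ i ∈ I, (F i + if i = i0 then R else 0) : ℕ) : ℝ) := by
      exact_mod_cast hI2
    refine h3.trans (le_of_eq ?_)
    push_cast
    rfl
  have h4 : ∑ i ∈ I, ((F i : ℝ) + if i = i0 then (R : ℝ) else 0) ≤ t * wt w I + m := by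
    rw [Finset.sum_add_distrib]
    apply add_le_add
    · unfold wt
      rw [Finset.mul_sum]
      exact Finset.sum_le_sum fun i _ => hF1 i
    · refine le_trans ?_ hR
      rw [Finset.sum_ite_eq' I i0 (fun _ => (R : ℝ))]
      split_ifs
      · exact le_rfl
      · exact Nat.cast_nonneg _
  rw [div_le_iff₀ ht0]
  linarith

end Pool.Agent.Lib.MP_455133_co.BO
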