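import Mathlib
import Pool.Agent.Lib.MP_455133_co.Defs
import Pool.Agent.Lib.MP_455133_co.Blocks

/-!
The upper bound.
-/

namespace Pool.Agent.Lib.MP_455133_co.BO

open Finset Pool.Agent.Lib.MP_455133_co

theorem UppB_lim (n k : ℕ) (hk : 1 ≤ k) :
    Filter.Tendsto (fun N : ℕ => (k : ℝ) * (((N : ℝ) / k) / ((N : ℝ) - n)) ^ (n + 1))
      Filter.atTop (nhds (1 / (k : ℝ) ^ n)) := by
  have hk0 : (k : ℝ) ≠ 0 := by
    have : (0 : ℝ) < k := by exact_mod_cast hk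
    exact this.ne'
  have h1 : Filter.Tendsto (fun N : ℕ => (n : ℝ) / (N : ℝ)) Filter.atTop (nhds 0) :=
    tendsto_const_div_atTop_nhds_zero_nat (n : ℝ)
  have h2 : Filter.Tendsto (fun N : ℕ => (1 / (k : ℝ)) / (1 - (n : ℝ) / (N : ℝ))) Filter.atTop
      (nhds ((1 / (k : ℝ)) / (1 - 0))) :=
    tendsto_const_nhds.div (tendsto_const_nhds.sub h1) (by norm_num)
  have h3 : Filter.Tendsto (fun N : ℕ => ((N : ℝ) / k) / ((N : ℝ) - n)) Filter.atTop
      (nhds ((1 / (k : ℝ)) / (1 - 0))) := by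
    refine h2.congr' ?_
    filter_upwards [Filter.eventually_gt_atTop n] with N hN
    have hN0 : (0 : ℝ) < N := by
      have : 0 < N := by omega
      exact_mod_cast this
    have hNn : (0 : ℝ) < (N : ℝ) - n := by
      have : (n : ℝ) < N := by exact_mod_cast hN
      linarith
    have e1 : 1 - (n : ℝ) / N = ((N : ℝ) - n) / N := by
      field_simp
    rw [e1]
    field_simp
  have h4 := (h3.pow (n + 1)).const_mul (k : ℝ)
  have e2 : (k : ℝ) * ((1 / (k : ℝ)) / (1 - 0)) ^ (n + 1) = 1 / (k : ℝ) ^ n := by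
    rw [sub_zero, div_one, pow_succ, one_div, inv_pow]
    field_simp
  rw [e2] at h4
  exact h4

/-- The block construction (`f_le_blocks` with `l = k` nearly equal blocks, sizes at most
`N / k + 1`, total `N`). -/
theorem upper_bound {n k : ℕ} (hk : 1 ≤ k) {η : ℝ} (hη : 0 < η) {s t : ℕ} (hs : 1 ≤ s)
    (hst : k * s ≤ t) : ∃ N₀ : ℕ, ∀ N : ℕ, N₀ ≤ N →
      (f N (n + 1) s t : ℝ) ≤ (1 / (k : ℝ) ^ n + η) * (N.choose (n + 1) : ℝ) := by
  have hk0 : (0 : ℝ) < k := by exact_mod_cast hk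
  have hlt : 1 / (k : ℝ) ^ n < 1 / (k : ℝ) ^ n + η := by linarith
  have hev := (UppB_lim n k hk).eventually_lt_const hlt
  obtain ⟨N₁, hN₁⟩ := Filter.eventually_atTop.1 hev
  refine ⟨max N₁ (n + 1), fun N hN => ?_⟩
  have hN1 := hN₁ N ((le_max_left _ _).trans hN)
  have hNn : n + 1 ≤ N := (le_max_right _ _).trans hN
  have hsub : (0 : ℝ) < (N : ℝ) - n := by
    have : (n : ℝ) + 1 ≤ N := by exact_mod_cast hNn
    linarith
  -- the blocks
  have hdm := Nat.div_add_mod N k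
  have hml := Nat.mod_lt N (by omega : 0 < k)
  have hf : f N (n + 1) s t ≤ ∑ _i : Fin k, (N / k).choose (n + 1) := by
    apply f_le_blocks (fun _ : Fin k => N / k)
    · rw [Finset.sum_const, Finset.card_univ, Fintype.card_fin, smul_eq_mul]
      exact Nat.mul_div_le N k
    · rw [Finset.sum_const, Finset.card_univ, Fintype.card_fin, smul_eq_mul]
      obtain ⟨s', rfl⟩ : ∃ s', s = s' + 1 := ⟨s - 1, by omega⟩
      rw [Nat.add_sub_cancel]
      have : k * (s' + 1) = k * s' + k := by ring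
      omega
    · exact hs
  rw [Finset.sum_const, Finset.card_univ, Fintype.card_fin, smul_eq_mul] at hf
  have hf' : (f N (n + 1) s t : ℝ) ≤ k * ((N / k).choose (n + 1) : ℝ) := by exact_mod_cast hf
  have hfac : (0 : ℝ) < ((n + 1).factorial : ℝ) := by exact_mod_cast Nat.factorial_pos _
  have hu : ((N / k).choose (n + 1) : ℝ) ≤ ((N : ℝ) / k) ^ (n + 1) / ((n + 1).factorial : ℝ) := by
    refine (Nat.choose_le_pow_div (n + 1) (N / k)).trans ?_
    have h1 : ((N / k : ℕ) : ℝ) ≤ (N : ℝ) / k := Nat.cast_div_le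
    gcongr
  have hl : ((N : ℝ) - n) ^ (n + 1) / ((n + 1).factorial : ℝ) ≤ (N.choose (n + 1) : ℝ) := by
    have h1 := Nat.pow_le_choose (α := ℝ) (n + 1) N
    have h2 : N + 1 - (n + 1) = N - n := by omega
    rw [h2] at h1
    have h3 : (((N - n : ℕ)) : ℝ) = (N : ℝ) - n := by
      rw [Nat.cast_sub (by omega)]
    rw [← h3]
    exact_mod_cast h1
  have hpow : (0 : ℝ) < ((N : ℝ) - n) ^ (n + 1) := pow_pos hsub _
  have hmain : (k : ℝ) * ((N : ℝ) / k) ^ (n + 1) ≤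
      (1 / (k : ℝ) ^ n + η) * ((N : ℝ) - n) ^ (n + 1) := by
    have h1 : (k : ℝ) * (((N : ℝ) / k) / ((N : ℝ) - n)) ^ (n + 1)
        = ((k : ℝ) * ((N : ℝ) / k) ^ (n + 1)) / ((N : ℝ) - n) ^ (n + 1) := by
      rw [div_pow ((N : ℝ) / k) ((N : ℝ) - n)]
      ring
    rw [h1, div_lt_iff₀ hpow] at hN1
    exact hN1.le
  have hη0 : 0 ≤ 1 / (k : ℝ) ^ n + η := by positivity
  calc (f N (n + 1) s t : ℝ) ≤ k * ((N / k).choose (n + 1) : ℝ) := hf'
    _ ≤ k * (((N : ℝ) / k) ^ (n + 1) / ((n + 1).factorial : ℝ)) :=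
        mul_le_mul_of_nonneg_left hu hk0.le
    _ = (k * ((N : ℝ) / k) ^ (n + 1)) / ((n + 1).factorial : ℝ) := by ring
    _ ≤ ((1 / (k : ℝ) ^ n + η) * ((N : ℝ) - n) ^ (n + 1)) / ((n + 1).factorial : ℝ) :=
        div_le_div_of_nonneg_right hmain hfac.le
    _ = (1 / (k : ℝ) ^ n + η) * (((N : ℝ) - n) ^ (n + 1) / ((n + 1).factorial : ℝ)) := by ring
    _ ≤ (1 / (k : ℝ) ^ n + η) * (N.choose (n + 1) : ℝ) := mul_le_mul_of_nonneg_left hl hη0

end Pool.Agent.Lib.MP_455133_co.BO
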